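import Pool.Agent.Run7.h406.PR.Main

/-!
# MP_7923e9_ag: the homological Parshin conjecture and rational function fields

Let `k` be the field with `q` elements, `H_i^c(X, ℚ(b)) = CH_b(X, i - 2 b) ⊗ ℚ` the rational motivic homology
with compact support of schemes over `k`, `H^i(F, ℚ(n))` the rational motivic cohomology of extension
fields `F` of `k`, with their known properties (`Motives`; among them localization, the exact sequence
`0 → H^(i+1)(K, n+1) → H^(i+1)(K(t), n+1) → ⨁_P H^i(K_P, n) → 0`, alterations, the theorem of Quillen for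
`K_*(k)`). `Ext.tower k d` is the field `K_d = k(t_1, …, t_d)`; `complS f` is the complement in the affine
space of the hypersurface `f = 0`, and `U_r = complS (allPoly k N r)` is the complement in `𝔸^N` of all
hypersurfaces of degree at most `r`.

Theorem. (1) Let `b < 0`, `d ≥ 1`, `n = d - b`. The following are equivalent:
(a) `P_b` for all smooth projective varieties of dimension at most `d`;
(b) `H_i^c(X, ℚ(b)) = 0` for all schemes `X` of finite type of dimension at most `d` and all `i`;
(c) `H^i(F, ℚ(n)) = 0` for all finitely generated fields `F` of transcendence degree at most `d`, all `i`;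
(d) `H^i(K_(d+1), ℚ(n+1)) = 0` for all `i`;
(e) `H^i(K_(d+1), ℚ(n+1))` is finite-dimensional for all `i`;
(f) the automorphism `t_(d+1) ↦ t_(d+1) + 1` acts trivially on `H^i(K_(d+1), ℚ(n+1))` for all `i`;
(g) each element of `H^i(K_(d+1), ℚ(n+1))` has infinitely many translates, `t_(d+1) ↦ t_(d+1) + a`,
`a ∈ K_d`, in a finite-dimensional space modulo `H^i(K_d, ℚ(n+1))`;
(h) `CH_b(𝔸^(d+1) - V(f), m) ⊗ ℚ = 0` for all polynomials `f ≠ 0` and all `m`;
(i) for each `m` the rank of `CH_b(U_r, m)` does not grow like `q ^ (c r ^ d)`, `c > 0`: for all `C` and `s`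
there is an `r = s d u`, `u ≥ 1`, with `C · rank CH_b(U_r, m) < q ^ ((u + 1) ^ d)`.
So if `P_b` is false in dimension `d`, then for some `m` these ranks are at least `q ^ (c r ^ d)`.
(2) For `b < 0` the statement `P_b` is true if and only if for infinitely many `d` all the spaces
`H^i(K_d, ℚ(d-b))` are finite-dimensional.
(3) For every integer `b ≤ d` the statement `P_b` in dimension at most `d` implies that
`H_i^c(X, ℚ(b)) = 0` for `i > e + b` and all `X` of dimension at most `e ≤ d`, and this is equivalent to
the analogues of (c) - (i) in the degrees `i < n` and `i ≤ n`, and `m > d + 1 - b`.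

Proof. A finitely generated field `F` of transcendence degree `d` is a residue field of a point `P` of
the affine line over `K_d`, and for given `a ≠ 0` one may choose `P(t + a) ≠ P(t)`. So a nonzero class of `F` is
the only residue of a class `x` over `K_(d+1)`, and `x(t + a)` has its residue at another point. For
polynomials `a` in `t_1, …, t_d` the classes `x(t + a)` come from `U_r` with `r` of the order of the
degree of `a`, and they span a space whose dimension is at least a constant times the number of
these polynomials `a`.
-/

set_option autoImplicit false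

open Pool.Agent.Run7.h406.PR

namespace Pool.Agent.Results.MP_7923e9_ag.RationalFunctionFields

/-- **Theorem.** The homological Parshin conjecture `P_b`, `b < 0`, in dimension at most `d` in terms of the
field `k(t_1, …, t_(d+1))` and of complements of hypersurfaces in `𝔸^(d+1)`; the consequences of `P_b`
for all integers `b`. -/
theorem result (k : Type) [Field k] [Finite k] (E : Motives k) :
    (∀ (b : ℤ) (d n : ℕ), b < 0 → 1 ≤ d → (n : ℤ) = d - b → List.TFAE [
      E.Parshin b d,
      E.AllVanish b d,
      E.FieldsVanish Set.univ n d,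
      E.Zero Set.univ (n + 1) (d + 1),
      E.FinDim Set.univ (n + 1) (d + 1),
      E.Fixed Set.univ (n + 1) d,
      E.Few Set.univ (n + 1) d,
      E.Complements b d Set.univ,
      E.Slow b d Set.univ]) ∧
    (∀ b : ℤ, b < 0 → ((∀ d, E.Parshin b d) ↔ ∀ D : ℕ, ∃ d n : ℕ, D ≤ d ∧ (n : ℤ) = d - b ∧
      E.FinDim Set.univ n d)) ∧
    (∀ (b : ℤ) (d n : ℕ), 1 ≤ d → (n : ℤ) = d - b → (E.Parshin b d → E.Above b d) ∧ List.TFAE [
      E.Above b d,
      E.FieldsVanish (Set.Iio (n : ℤ)) n d,
      E.Zero (Set.Iic (n : ℤ)) (n + 1) (d + 1),
      E.FinDim (Set.Iic (n : ℤ)) (n + 1) (d + 1),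
      E.Fixed (Set.Iic (n : ℤ)) (n + 1) d,
      E.Few (Set.Iic (n : ℤ)) (n + 1) d,
      E.Complements b d (Set.Ioi (n + 1)),
      E.Slow b d (Set.Ioi (n + 1))]) :=
  ⟨fun b d n hb hd hn => parshin_tfae E b hb d n hd hn, fun b hb => parshin_all E b hb,
    fun b d n hd hn => ⟨above_of_parshin E.toBorelMoore b d, above_tfae E b d n hd hn⟩⟩

end Pool.Agent.Results.MP_7923e9_ag.RationalFunctionFields
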